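import Pool.Agent.Lib.MP_c4e285_co.Stage

/-!
# The inductive construction
-/

set_option autoImplicit false

namespace Pool.Agent.Lib.MP_c4e285_co

open Finset
open scoped symmDiff

/-- A finite stage of the construction: `B + B` misses `E₁ + E₂`. -/
structure Stage where
  N : ℕ
  B : Finset F2
  E₁ : Set F2
  E₂ : Set F2
  hB : ∀ b ∈ B, b ∈ V N
  h₁ : ∀ e ∈ E₁, e ∈ V N
  h₂ : ∀ e ∈ E₂, e ∈ V N
  ne₁ : E₁.Nonempty
  ne₂ : E₂.Nonempty
  inv : ∀ b ∈ B, ∀ b' ∈ B, ∀ e ∈ E₁, ∀ e' ∈ E₂, b + b' ≠ e + e'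

/-- Relative density of `B` in `V N`. -/
noncomputable def Stage.dens (s : Stage) : ℝ := (s.B.card : ℝ) / 2 ^ s.N

theorem Stage.dens_nonneg (s : Stage) : 0 ≤ s.dens := by unfold Stage.dens; positivity

/-- Exchange the two sets `E₁`, `E₂`. -/
def Stage.swap (s : Stage) : Stage where
  N := s.N
  B := s.B
  E₁ := s.E₂
  E₂ := s.E₁
  hB := s.hB
  h₁ := s.h₂
  h₂ := s.h₁
  ne₁ := s.ne₂
  ne₂ := s.ne₁
  inv := fun b hb b' hb' e he e' he' h => s.inv b hb b' hb' e' he' e he (by rw [h, add_comm])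

/-- Every set of `≤ t` characters takes at some point of `E` the same values as at `g`. -/
def Hit (E : Set F2) (g : F2) (t : ℕ) : Prop :=
  ∀ k ≤ t, ∀ χ : Fin k → AddChar F2 Circle, ∃ e ∈ E, ∀ j, χ j e = χ j g

theorem Hit.mono {E E' : Set F2} (h : E ⊆ E') {g : F2} {t : ℕ} (hE : Hit E g t) : Hit E' g t := by
  intro k hk χ
  obtain ⟨e, he, h'⟩ := hE k hk χ
  exact ⟨e, h he, h'⟩

/-- The order on stages. -/
def Le (s s' : Stage) : Prop := s.N ≤ s'.N ∧ s.B ⊆ s'.B ∧ s.E₁ ⊆ s'.E₁ ∧ s.E₂ ⊆ s'.E₂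

theorem Le.trans {s s' s'' : Stage} (h : Le s s') (h' : Le s' s'') : Le s s'' :=
  ⟨h.1.trans h'.1, h.2.1.trans h'.2.1, h.2.2.1.trans h'.2.2.1, h.2.2.2.trans h'.2.2.2⟩

/-- Adding free coordinates. -/
theorem pad (s : Stage) (M : ℕ) (hM : s.N ≤ M) : ∃ s' : Stage, Le s s' ∧ s'.N = M ∧
    s'.dens = s.dens := by
  classical
  let T : Finset ℕ := Finset.Ico s.N M
  have hT : ∀ i ∈ T, s.N ≤ i := fun i hi => (Finset.mem_Ico.1 hi).1
  let B' : Finset F2 := (s.B ×ˢ T.powerset).image (fun q => q.1 + w q.2)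
  have hmem : ∀ x, x ∈ B' ↔ ∃ b ∈ s.B, ∃ J ⊆ T, x = b + w J := by
    intro x
    simp only [B', Finset.mem_image, Finset.mem_product, Finset.mem_powerset, Prod.exists]
    constructor
    · rintro ⟨b, J, ⟨h1, h2⟩, h3⟩; exact ⟨b, h1, J, h2, h3.symm⟩
    · rintro ⟨b, h1, J, h2, h3⟩; exact ⟨b, J, ⟨h1, h2⟩, h3.symm⟩
  have hwT : ∀ J ⊆ T, w J ∈ V M := fun J hJ =>
    w_mem_V (fun i hi => (Finset.mem_Ico.1 (hJ hi)).2)
  refine ⟨⟨M, B', s.E₁, s.E₂, ?_, ?_, ?_, s.ne₁, s.ne₂, ?_⟩, ⟨hM, ?_, subset_rfl, subset_rfl⟩,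
    rfl, ?_⟩
  · intro b hb
    obtain ⟨β, hβ, J, hJ, rfl⟩ := (hmem b).1 hb
    exact V_add (V_mono hM (s.hB β hβ)) (hwT J hJ)
  · exact fun e he => V_mono hM (s.h₁ e he)
  · exact fun e he => V_mono hM (s.h₂ e he)
  · intro b hb b' hb' e he e' he' h
    obtain ⟨β, hβ, J, hJ, rfl⟩ := (hmem b).1 hb
    obtain ⟨β', hβ', J', hJ', rfl⟩ := (hmem b').1 hb'
    have h1 : (β + β') + w (J ∆ J') = (e + e') + w ∅ := by
      rw [w_symmDiff, w_empty, add_zero, ← h]; abel
    have h2 := split hT (V_add (s.hB β hβ) (s.hB β' hβ')) (V_add (s.h₁ e he) (s.h₂ e' he'))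
      (fun i hi => by
        rw [Finset.mem_symmDiff] at hi
        rcases hi with ⟨hi, _⟩ | ⟨hi, _⟩
        exacts [hJ hi, hJ' hi]) (Finset.empty_subset _) h1
    exact s.inv β hβ β' hβ' e he e' he' h2.1
  · intro b hb
    exact (hmem b).2 ⟨b, hb, ∅, Finset.empty_subset _, by rw [w_empty, add_zero]⟩
  · change (B'.card : ℝ) / 2 ^ M = s.dens
    have hcard : B'.card = s.B.card * 2 ^ (M - s.N) := by
      rw [Finset.card_image_of_injOn, Finset.card_product, Finset.card_powerset, Nat.card_Ico]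
      rintro ⟨b, J⟩ h1 ⟨b', J'⟩ h2 h3
      simp only [Finset.coe_product, Set.mem_prod, Finset.mem_coe, Finset.mem_powerset] at h1 h2 h3
      obtain ⟨h4, h5⟩ := split hT (s.hB b h1.1) (s.hB b' h2.1) h1.2 h2.2 h3
      rw [h4, h5]
    rw [hcard, Stage.dens]
    push_cast
    rw [div_eq_div_iff (by positivity) (by positivity), mul_assoc, ← pow_add]
    congr 2
    omega

theorem card_middle {n t : ℕ} (T : Finset ℕ) (hT : T.card = 2 * n) :
    (T.powerset.filter (fun J => ¬ (J.card + t < n ∨ n + t < J.card))).card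
      ≤ (2 * t + 1) * Nat.centralBinom n := by
  classical
  have h1 : T.powerset.filter (fun J => ¬ (J.card + t < n ∨ n + t < J.card)) ⊆
      (Finset.Icc (n - t) (n + t)).biUnion (fun i => T.powersetCard i) := by
    intro J hJ
    rw [Finset.mem_filter, Finset.mem_powerset] at hJ
    rw [Finset.mem_biUnion]
    refine ⟨J.card, ?_, ?_⟩
    · rw [Finset.mem_Icc]; omega
    · rw [Finset.mem_powersetCard]; exact ⟨hJ.1, rfl⟩
  refine (Finset.card_le_card h1).trans (Finset.card_biUnion_le.trans ?_)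
  calc ∑ i ∈ Finset.Icc (n - t) (n + t), (T.powersetCard i).card
      ≤ ∑ _i ∈ Finset.Icc (n - t) (n + t), Nat.centralBinom n := by
        apply Finset.sum_le_sum
        intro i _
        rw [Finset.card_powersetCard, hT]
        exact Nat.choose_le_centralBinom i n
    _ = (Finset.Icc (n - t) (n + t)).card * Nat.centralBinom n := by
        rw [Finset.sum_const, smul_eq_mul]
    _ ≤ (2 * t + 1) * Nat.centralBinom n := by
        apply Nat.mul_le_mul_right
        rw [Nat.card_Icc]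
        omega

/-- Main step: enlarge `E₁`, when `g ∈ V N`. -/
theorem step₁ (s : Stage) (g : F2) (hg : g ∈ V s.N) (t : ℕ) {δ : ℝ} (hδ : 0 < δ) :
    ∃ s' : Stage, Le s s' ∧ s.N < s'.N ∧ (1 - δ) * s.dens ≤ s'.dens ∧ Hit s'.E₁ g t := by
  classical
  obtain ⟨n, htn, hn⟩ := exists_n t hδ
  obtain ⟨e₀, he₀⟩ := s.ne₁
  let T : Finset ℕ := Finset.Ico s.N (s.N + 2 * n)
  have hT : ∀ i ∈ T, s.N ≤ i := fun i hi => (Finset.mem_Ico.1 hi).1
  have hTcard : T.card = 2 * n := by rw [Nat.card_Ico]; omega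
  let 𝒢 : Finset (Finset ℕ) := T.powerset.filter (fun J => J.card + t < n ∨ n + t < J.card)
  let τ : Finset ℕ → F2 := fun J => if J.card + t < n then 0 else g + e₀
  have hτ : ∀ J, τ J ∈ V s.N := by
    intro J
    simp only [τ]
    split_ifs
    · exact V_zero _
    · exact V_add hg (s.h₁ e₀ he₀)
  let B' : Finset F2 := (s.B ×ˢ 𝒢).image (fun q => (q.1 + τ q.2) + w q.2)
  have hmem : ∀ x, x ∈ B' ↔ ∃ b ∈ s.B, ∃ J ∈ 𝒢, x = (b + τ J) + w J := by
    intro x
    simp only [B', Finset.mem_image, Finset.mem_product, Prod.exists]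
    constructor
    · rintro ⟨b, J, ⟨h1, h2⟩, h3⟩; exact ⟨b, h1, J, h2, h3.symm⟩
    · rintro ⟨b, h1, J, h2, h3⟩; exact ⟨b, J, ⟨h1, h2⟩, h3.symm⟩
  have h𝒢 : ∀ J, J ∈ 𝒢 ↔ J ⊆ T ∧ (J.card + t < n ∨ n + t < J.card) := by
    intro J; simp only [𝒢, Finset.mem_filter, Finset.mem_powerset]
  have hwT : ∀ J ⊆ T, w J ∈ V (s.N + 2 * n) := fun J hJ =>
    w_mem_V (fun i hi => (Finset.mem_Ico.1 (hJ hi)).2)
  have hNle : s.N ≤ s.N + 2 * n := Nat.le_add_right _ _
  let E' : Set F2 := s.E₁ ∪ {x | ∃ K ⊆ T, 2 * n ≤ K.card + t ∧ x = g + w K}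
  refine ⟨⟨s.N + 2 * n, B', E', s.E₂, ?_, ?_, ?_, ⟨e₀, Or.inl he₀⟩, s.ne₂, ?_⟩,
    ⟨hNle, ?_, Set.subset_union_left, subset_rfl⟩, ?_, ?_, ?_⟩
  · intro b hb
    obtain ⟨β, hβ, J, hJ, rfl⟩ := (hmem b).1 hb
    exact V_add (V_mono hNle (V_add (s.hB β hβ) (hτ J))) (hwT J ((h𝒢 J).1 hJ).1)
  · rintro e (he | ⟨K, hK, _, rfl⟩)
    · exact V_mono hNle (s.h₁ e he)
    · exact V_add (V_mono hNle hg) (hwT K hK)
  · exact fun e he => V_mono hNle (s.h₂ e he)
  · intro b hb b' hb' e he e' he' h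
    obtain ⟨β, hβ, J, hJ, rfl⟩ := (hmem b).1 hb
    obtain ⟨β', hβ', J', hJ', rfl⟩ := (hmem b').1 hb'
    obtain ⟨hJT, hJc⟩ := (h𝒢 J).1 hJ
    obtain ⟨hJT', hJc'⟩ := (h𝒢 J').1 hJ'
    have hVsum : (β + τ J) + (β' + τ J') ∈ V s.N :=
      V_add (V_add (s.hB β hβ) (hτ J)) (V_add (s.hB β' hβ') (hτ J'))
    have hJJ : J ∆ J' ⊆ T := fun i hi => by
      rw [Finset.mem_symmDiff] at hi
      rcases hi with ⟨hi, _⟩ | ⟨hi, _⟩
      exacts [hJT hi, hJT' hi]
    rcases he with he | ⟨K, hKT, hKc, rfl⟩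
    · have h1 : ((β + τ J) + (β' + τ J')) + w (J ∆ J') = (e + e') + w ∅ := by
        rw [w_symmDiff, w_empty, add_zero, ← h]; abel
      obtain ⟨h2, h3⟩ := split hT hVsum (V_add (s.h₁ e he) (s.h₂ e' he')) hJJ
        (Finset.empty_subset _) h1
      have h4 : J = J' := by
        rw [← Finset.bot_eq_empty] at h3
        exact symmDiff_eq_bot.1 h3
      subst h4
      apply s.inv β hβ β' hβ' e he e' he'
      rw [← h2]
      have h5 := add_self (τ J)
      calc β + β' = β + β' + 0 := by rw [add_zero]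
        _ = β + β' + (τ J + τ J) := by rw [h5]
        _ = β + τ J + (β' + τ J) := by abel
    · have h1 : ((β + τ J) + (β' + τ J')) + w (J ∆ J') = (g + e') + w K := by
        rw [w_symmDiff]
        calc (β + τ J) + (β' + τ J') + (w J + w J') = (β + τ J + w J) + (β' + τ J' + w J') := by abel
          _ = g + w K + e' := h
          _ = (g + e') + w K := by abel
      obtain ⟨h2, h3⟩ := split hT hVsum (V_add hg (s.h₂ e' he')) hJJ hKT h1
      -- exactly one of `J`, `J'` is low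
      have hc1 : K.card ≤ J.card + J'.card := by
        rw [← h3]
        have : J ∆ J' ⊆ J ∪ J' := fun i hi => by
          rw [Finset.mem_symmDiff] at hi
          rw [Finset.mem_union]
          tauto
        exact (Finset.card_le_card this).trans (Finset.card_union_le _ _)
      have hc2 : K.card ≤ (T \ J).card + (T \ J').card := by
        rw [← h3]
        have : J ∆ J' ⊆ (T \ J) ∪ (T \ J') := fun i hi => by
          have hiT := hJJ hi
          rw [Finset.mem_symmDiff] at hi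
          rw [Finset.mem_union, Finset.mem_sdiff, Finset.mem_sdiff]
          tauto
        exact (Finset.card_le_card this).trans (Finset.card_union_le _ _)
      have hd1 : (T \ J).card = 2 * n - J.card := by
        rw [Finset.card_sdiff_of_subset hJT, hTcard]
      have hd2 : (T \ J').card = 2 * n - J'.card := by
        rw [Finset.card_sdiff_of_subset hJT', hTcard]
      have hττ : τ J + τ J' = g + e₀ := by
        by_cases hl : J.card + t < n
        · have hl' : ¬ (J'.card + t < n) := by omega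
          simp only [τ, if_pos hl, if_neg hl', zero_add]
        · have hl' : J'.card + t < n := by omega
          simp only [τ, if_neg hl, if_pos hl', add_zero]
      apply s.inv β hβ β' hβ' e₀ he₀ e' he'
      have h5 := add_self g
      have h6 : β + β' + (τ J + τ J') = g + e' := by rw [← h2]; abel
      rw [hττ] at h6
      calc β + β' = β + β' + (g + e₀) + (g + e₀) := by
            have := add_self (g + e₀)
            rw [add_assoc (β + β'), this, add_zero]
        _ = (g + e') + (g + e₀) := by rw [h6]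
        _ = (g + g) + (e₀ + e') := by abel
        _ = e₀ + e' := by rw [h5, zero_add]
  · intro b hb
    refine (hmem b).2 ⟨b, hb, ∅, (h𝒢 ∅).2 ⟨Finset.empty_subset _, Or.inl (by simpa using htn)⟩, ?_⟩
    have : τ ∅ = 0 := by
      simp only [τ, Finset.card_empty, zero_add, if_pos htn]
    rw [this, w_empty, add_zero, add_zero]
  · change s.N < s.N + 2 * n
    omega
  · -- density
    change (1 - δ) * s.dens ≤ (B'.card : ℝ) / 2 ^ (s.N + 2 * n)
    have hcard : B'.card = s.B.card * 𝒢.card := by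
      rw [Finset.card_image_of_injOn, Finset.card_product]
      rintro ⟨b, J⟩ h1 ⟨b', J'⟩ h2 h3
      simp only [Finset.coe_product, Set.mem_prod, Finset.mem_coe] at h1 h2 h3
      obtain ⟨h4, h5⟩ := split hT (V_add (s.hB b h1.1) (hτ J)) (V_add (s.hB b' h2.1) (hτ J'))
        ((h𝒢 J).1 h1.2).1 ((h𝒢 J').1 h2.2).1 h3
      subst h5
      rw [add_right_cancel h4]
    have hsum : 𝒢.card + (T.powerset.filter
        (fun J => ¬ (J.card + t < n ∨ n + t < J.card))).card = 4 ^ n := by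
      rw [Finset.card_filter_add_card_filter_not, Finset.card_powerset, hTcard, pow_mul]
      norm_num
    have hmid := card_middle (n := n) (t := t) T hTcard
    have h𝒢card : (1 - δ) * 4 ^ n ≤ (𝒢.card : ℝ) := by
      have h1 : (𝒢.card : ℝ) + ((T.powerset.filter
        (fun J => ¬ (J.card + t < n ∨ n + t < J.card))).card : ℝ) = 4 ^ n := by
        exact_mod_cast hsum
      have h2 : ((T.powerset.filter
        (fun J => ¬ (J.card + t < n ∨ n + t < J.card))).card : ℝ) ≤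
          ((2 * t + 1 : ℕ) : ℝ) * (Nat.centralBinom n : ℝ) := by
        exact_mod_cast hmid
      linarith
    rw [hcard, Stage.dens, pow_add, pow_mul]
    push_cast
    have h2N : (0 : ℝ) < 2 ^ s.N := by positivity
    have h4n : (0 : ℝ) < (2 ^ 2) ^ n := by positivity
    rw [← mul_div_assoc, div_le_div_iff₀ h2N (by positivity)]
    have h4 : ((2 : ℝ) ^ 2) ^ n = 4 ^ n := by norm_num
    rw [h4]
    have hBnn : (0 : ℝ) ≤ (s.B.card : ℝ) := by positivity
    calc (1 - δ) * (s.B.card : ℝ) * (2 ^ s.N * 4 ^ n)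
        = (s.B.card : ℝ) * 2 ^ s.N * ((1 - δ) * 4 ^ n) := by ring
      _ ≤ (s.B.card : ℝ) * 2 ^ s.N * (𝒢.card : ℝ) :=
          mul_le_mul_of_nonneg_left h𝒢card (by positivity)
      _ = (s.B.card : ℝ) * (𝒢.card : ℝ) * 2 ^ s.N := by ring
  · -- hitting
    intro k hk χ
    obtain ⟨I, hIT, hIk, hI⟩ := small_rep χ T
    refine ⟨g + w (T \ I), Or.inr ⟨T \ I, Finset.sdiff_subset, ?_, rfl⟩, fun j => ?_⟩
    · rw [Finset.card_sdiff_of_subset hIT, hTcard]
      omega
    · have h1 : T \ I = T ∆ I := by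
        ext i
        simp only [Finset.mem_sdiff, Finset.mem_symmDiff]
        have := @hIT i
        tauto
      rw [h1, w_symmDiff, AddChar.map_add_eq_mul, AddChar.map_add_eq_mul, hI j, char_sq, mul_one]

/-- Main step, for both sets. -/
theorem step (s : Stage) (g : F2) (t : ℕ) (i : Bool) {δ : ℝ} (hδ : 0 < δ) :
    ∃ s' : Stage, Le s s' ∧ s.N < s'.N ∧ (1 - δ) * s.dens ≤ s'.dens ∧
      Hit (if i then s'.E₁ else s'.E₂) g t := by
  obtain ⟨M, hM⟩ := exists_V g
  obtain ⟨s₁, hs₁, hN₁, hd₁⟩ := pad s (max s.N M) (le_max_left _ _)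
  have hg : g ∈ V s₁.N := V_mono (by rw [hN₁]; exact le_max_right _ _) hM
  cases i with
  | true =>
    obtain ⟨s₂, h1, h2, h3, h4⟩ := step₁ s₁ g hg t hδ
    exact ⟨s₂, hs₁.trans h1, lt_of_le_of_lt hs₁.1 h2, by rw [← hd₁]; exact h3, by simpa using h4⟩
  | false =>
    obtain ⟨s₂, h1, h2, h3, h4⟩ := step₁ s₁.swap g hg t hδ
    refine ⟨s₂.swap, ?_, lt_of_le_of_lt hs₁.1 h2, by rw [← hd₁]; exact h3, h4⟩
    exact hs₁.trans ⟨h1.1, h1.2.1, h1.2.2.2, h1.2.2.1⟩

/-- The initial stage. -/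
noncomputable def init : Stage where
  N := 1
  B := {0}
  E₁ := {0}
  E₂ := {w {0}}
  hB := by
    intro b hb
    rw [Finset.mem_singleton] at hb
    rw [hb]; exact V_zero _
  h₁ := by
    intro b hb
    rw [Set.mem_singleton_iff] at hb
    rw [hb]; exact V_zero _
  h₂ := by
    intro b hb
    rw [Set.mem_singleton_iff] at hb
    rw [hb]
    exact w_mem_V (by simp)
  ne₁ := Set.singleton_nonempty _
  ne₂ := Set.singleton_nonempty _
  inv := by
    intro b hb b' hb' e he e' he' h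
    rw [Finset.mem_singleton] at hb hb'
    rw [Set.mem_singleton_iff] at he he'
    subst hb hb' he he'
    have := DFunLike.congr_fun h 0
    simp [w_apply] at this

theorem init_dens : init.dens = 1 / 2 := by
  simp [init, Stage.dens]

/-- The result of the construction. -/
theorem exists_sets {ε : ℝ} (hε : 0 < ε) :
    ∃ (N : ℕ → ℕ) (B : Set F2) (E : Bool → Set F2), StrictMono N ∧
      (∀ m, ∃ S : Finset F2, (∀ x ∈ S, x ∈ V (N m) ∧ x ∈ B) ∧
        1 / 2 - ε ≤ (S.card : ℝ) / 2 ^ (N m)) ∧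
      (∀ b ∈ B, ∀ b' ∈ B, ∀ e ∈ E true, ∀ e' ∈ E false, b + b' ≠ e + e') ∧
      ∀ i g t, Hit (E i) g t := by
  classical
  obtain ⟨item, hitem⟩ := exists_surjective_nat (F2 × ℕ × Bool)
  have hδ : ∀ m : ℕ, (0 : ℝ) < ε * (1 / 2) ^ m := fun m => by positivity
  choose nxt h1 h2 h3 h4 using fun (s : Stage) (m : ℕ) =>
    step s (item m).1 (item m).2.1 (item m).2.2 (hδ m)
  let S : ℕ → Stage := fun m => Nat.rec init (fun m s => nxt s m) m
  have hS : ∀ m, S (m + 1) = nxt (S m) m := fun m => rfl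
  have hle1 : ∀ m, Le (S m) (S (m + 1)) := fun m => by rw [hS]; exact h1 _ _
  have hle : ∀ m m', m ≤ m' → Le (S m) (S m') := by
    intro m m' hmm
    induction m', hmm using Nat.le_induction with
    | base => exact ⟨le_rfl, subset_rfl, subset_rfl, subset_rfl⟩
    | succ m' _ ih => exact ih.trans (hle1 m')
  have hN : StrictMono (fun m => (S m).N) := strictMono_nat_of_lt_succ
    (fun m => by change (S m).N < (S (m + 1)).N; rw [hS]; exact h2 _ _)
  -- density
  have hgeom : ∀ m : ℕ, ∑ l ∈ Finset.range m, ε * (1 / 2 : ℝ) ^ l ≤ 2 * ε := by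
    intro m
    rw [← Finset.mul_sum]
    have : ∑ l ∈ Finset.range m, (1 / 2 : ℝ) ^ l ≤ 2 := by
      rw [geom_sum_eq (by norm_num)]
      have h5 : (0 : ℝ) ≤ (1 / 2) ^ m := by positivity
      have h6 : ((1 / 2 : ℝ) ^ m - 1) / (1 / 2 - 1) = 2 - 2 * (1 / 2) ^ m := by ring
      rw [h6]
      linarith
    nlinarith
  have hdens : ∀ m, (1 - ∑ l ∈ Finset.range m, ε * (1 / 2 : ℝ) ^ l) * (1 / 2) ≤ (S m).dens := by
    intro m
    induction m with
    | zero =>
      change _ ≤ init.dens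
      rw [init_dens]; simp
    | succ m ih =>
      have h5 := h3 (S m) m
      rw [← hS] at h5
      rw [Finset.sum_range_succ]
      set σ := ∑ l ∈ Finset.range m, ε * (1 / 2 : ℝ) ^ l with hσ
      have hσ0 : 0 ≤ σ := Finset.sum_nonneg (fun l _ => (hδ l).le)
      have hδm := hδ m
      set δ := ε * (1 / 2 : ℝ) ^ m with hδdef
      by_cases hδ1 : δ ≤ 1
      · nlinarith [mul_nonneg hσ0 hδm.le, mul_le_mul_of_nonneg_left ih (sub_nonneg.2 hδ1)]
      · push Not at hδ1
        have := (S (m + 1)).dens_nonneg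
        nlinarith
  refine ⟨fun m => (S m).N, {x | ∃ m, x ∈ (S m).B},
    fun i => {x | ∃ m, x ∈ (if i then (S m).E₁ else (S m).E₂)}, hN, ?_, ?_, ?_⟩
  · intro m
    refine ⟨(S m).B, fun x hx => ⟨(S m).hB x hx, m, hx⟩, ?_⟩
    have h5 := hdens m
    have h6 := hgeom m
    change 1 / 2 - ε ≤ (S m).dens
    linarith
  · rintro b ⟨m₁, hb⟩ b' ⟨m₂, hb'⟩ e ⟨m₃, he⟩ e' ⟨m₄, he'⟩
    simp only [if_true] at he
    simp only [Bool.false_eq_true, if_false] at he'
    let m := max (max m₁ m₂) (max m₃ m₄)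
    have g1 : m₁ ≤ m := (le_max_left _ _).trans (le_max_left _ _)
    have g2 : m₂ ≤ m := (le_max_right _ _).trans (le_max_left _ _)
    have g3 : m₃ ≤ m := (le_max_left _ _).trans (le_max_right _ _)
    have g4 : m₄ ≤ m := (le_max_right _ _).trans (le_max_right _ _)
    exact (S m).inv b ((hle _ _ g1).2.1 hb) b' ((hle _ _ g2).2.1 hb') e
      ((hle _ _ g3).2.2.1 he) e' ((hle _ _ g4).2.2.2 he')
  · intro i g t
    obtain ⟨m, hm⟩ := hitem (g, t, i)
    have h5 := h4 (S m) m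
    rw [hm, ← hS] at h5
    refine Hit.mono ?_ h5
    intro x hx
    exact ⟨m + 1, hx⟩

end Pool.Agent.Lib.MP_c4e285_co
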