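import Mathlib

/-!
# Building blocks in the group `⨁ ℤ/2`
-/

set_option autoImplicit false

namespace Pool.Agent.Lib.MP_c4e285_co

open Finset
open scoped symmDiff

/-- The direct sum of countably many copies of `ℤ/2`. -/
abbrev F2 : Type := ℕ →₀ ZMod 2

theorem add_self (x : F2) : x + x = 0 := by
  ext i
  simp [CharTwo.add_self_eq_zero]

/-- Indicator vector of a finite set. -/
noncomputable def w (J : Finset ℕ) : F2 := ∑ i ∈ J, Finsupp.single i 1

theorem w_apply (J : Finset ℕ) (i : ℕ) : w J i = if i ∈ J then 1 else 0 := by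
  simp [w, Finsupp.finsetSum_apply, Finsupp.single_apply]

theorem w_empty : w ∅ = 0 := by simp [w]

theorem w_symmDiff (J K : Finset ℕ) : w (J ∆ K) = w J + w K := by
  ext i
  simp only [w_apply, Finsupp.add_apply, Finset.mem_symmDiff]
  by_cases h1 : i ∈ J <;> by_cases h2 : i ∈ K <;> simp [h1, h2, CharTwo.add_self_eq_zero]

theorem w_injective : Function.Injective w := by
  intro J K h
  ext i
  have := DFunLike.congr_fun h i
  rw [w_apply, w_apply] at this
  by_cases h1 : i ∈ J <;> by_cases h2 : i ∈ K <;> simp_all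

/-- The vectors supported in `{0, …, N-1}`. -/
def V (N : ℕ) : Set F2 := {x | ∀ i, N ≤ i → x i = 0}

theorem V_add {N : ℕ} {x y : F2} (hx : x ∈ V N) (hy : y ∈ V N) : x + y ∈ V N := by
  intro i hi
  simp [hx i hi, hy i hi]

theorem V_zero (N : ℕ) : (0 : F2) ∈ V N := fun _ _ => rfl

theorem V_mono {N M : ℕ} (h : N ≤ M) {x : F2} (hx : x ∈ V N) : x ∈ V M :=
  fun i hi => hx i (h.trans hi)

theorem w_mem_V {J : Finset ℕ} {N : ℕ} (h : ∀ i ∈ J, i < N) : w J ∈ V N := by
  intro i hi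
  rw [w_apply, if_neg]
  intro h'
  exact absurd (h i h') (not_lt.2 hi)

theorem exists_V (x : F2) : ∃ N, x ∈ V N := by
  refine ⟨x.support.sup id + 1, fun i hi => ?_⟩
  by_contra h
  have h1 : i ∈ x.support := Finsupp.mem_support_iff.2 h
  have h2 : id i ≤ x.support.sup id := Finset.le_sup h1
  simp only [id] at h2
  omega

theorem split {N : ℕ} {T : Finset ℕ} (hT : ∀ i ∈ T, N ≤ i) {x x' : F2} (hx : x ∈ V N)
    (hx' : x' ∈ V N) {J J' : Finset ℕ} (hJ : J ⊆ T) (hJ' : J' ⊆ T)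
    (h : x + w J = x' + w J') : x = x' ∧ J = J' := by
  have h1 : x = x' := by
    ext i
    by_cases hi : N ≤ i
    · rw [hx i hi, hx' i hi]
    · have h2 := DFunLike.congr_fun h i
      have h3 : i ∉ J := fun h' => hi (hT i (hJ h'))
      have h4 : i ∉ J' := fun h' => hi (hT i (hJ' h'))
      simpa [w_apply, h3, h4] using h2
  subst h1
  exact ⟨rfl, w_injective (add_left_cancel h)⟩

theorem char_sq {χ : AddChar F2 Circle} (x : F2) : χ x * χ x = 1 := by
  rw [← AddChar.map_add_eq_mul, add_self, AddChar.map_zero_eq_one]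

theorem char_eq_of_sign {χ : AddChar F2 Circle} {x y : F2} (h : χ x = 1 ↔ χ y = 1) :
    χ x = χ y := by
  have key : ∀ z : F2, χ z = 1 ∨ ((χ z : Circle) : ℂ) = -1 := by
    intro z
    have h1 : ((χ z : Circle) : ℂ) * ((χ z : Circle) : ℂ) = 1 := by
      rw [← Circle.coe_mul, char_sq, Circle.coe_one]
    have h2 : (((χ z : Circle) : ℂ) - 1) * (((χ z : Circle) : ℂ) + 1) = 0 := by
      ring_nf; rw [sq, h1]; ring
    rcases mul_eq_zero.1 h2 with h3 | h3
    · left
      apply Circle.ext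
      rw [Circle.coe_one]
      exact sub_eq_zero.1 h3
    · right
      exact eq_neg_of_add_eq_zero_left h3
  rcases key x with hx | hx
  · rw [hx, h.1 hx]
  · rcases key y with hy | hy
    · rw [hy, h.2 hy]
    · apply Circle.ext
      rw [hx, hy]

/-- `k` characters cannot distinguish the indicator vector of `T` from that of all its subsets
with at most `k` elements. -/
theorem small_rep {k : ℕ} (χ : Fin k → AddChar F2 Circle) (T : Finset ℕ) :
    ∃ I ⊆ T, I.card ≤ k ∧ ∀ j, χ j (w I) = χ j (w T) := by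
  classical
  -- a representation of minimal size
  have hex : ∃ m, ∃ I ⊆ T, I.card = m ∧ ∀ j, χ j (w I) = χ j (w T) :=
    ⟨T.card, T, subset_rfl, rfl, fun _ => rfl⟩
  obtain ⟨I, hIT, hIm, hI⟩ := Nat.find_spec hex
  refine ⟨I, hIT, ?_, hI⟩
  by_contra hk
  push Not at hk
  let f : Finset ℕ → (Fin k → Bool) := fun J j => decide (χ j (w J) = 1)
  have hcard : (Finset.univ : Finset (Fin k → Bool)).card < I.powerset.card := by
    rw [Finset.card_powerset, Finset.card_univ, Fintype.card_fun, Fintype.card_bool,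
      Fintype.card_fin]
    exact Nat.pow_lt_pow_right (by norm_num) hk
  obtain ⟨J₁, hJ₁, J₂, hJ₂, hne, hf⟩ := Finset.exists_ne_map_eq_of_card_lt_of_maps_to hcard
    (f := f) (fun _ _ => Finset.mem_coe.2 (Finset.mem_univ _))
  rw [Finset.mem_powerset] at hJ₁ hJ₂
  have heq : ∀ j, χ j (w J₁) = χ j (w J₂) := by
    intro j
    have h1 := congrFun hf j
    simp only [f, decide_eq_decide] at h1
    exact char_eq_of_sign h1
  have hD : (J₁ ∆ J₂).Nonempty := by
    rw [Finset.nonempty_iff_ne_empty]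
    intro h
    rw [← Finset.bot_eq_empty, symmDiff_eq_bot] at h
    exact hne h
  have hDI : J₁ ∆ J₂ ⊆ I := by
    intro i hi
    rw [Finset.mem_symmDiff] at hi
    rcases hi with ⟨h, _⟩ | ⟨h, _⟩
    · exact hJ₁ h
    · exact hJ₂ h
  have hχD : ∀ j, χ j (w (J₁ ∆ J₂)) = 1 := by
    intro j
    rw [w_symmDiff, AddChar.map_add_eq_mul, heq j, char_sq]
  have hI' : ∀ j, χ j (w (I \ (J₁ ∆ J₂))) = χ j (w T) := by
    intro j
    have h1 : I \ (J₁ ∆ J₂) = I ∆ (J₁ ∆ J₂) := by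
      ext i
      simp only [Finset.mem_sdiff, Finset.mem_symmDiff]
      have := @hDI i
      simp only [Finset.mem_symmDiff] at this
      tauto
    rw [h1, w_symmDiff, AddChar.map_add_eq_mul, hχD j, mul_one, hI j]
  have hlt : (I \ (J₁ ∆ J₂)).card < I.card := by
    apply Finset.card_lt_card
    refine ⟨Finset.sdiff_subset, fun h => ?_⟩
    obtain ⟨i, hi⟩ := hD
    exact (Finset.mem_sdiff.1 (h (hDI hi))).2 hi
  rw [hIm] at hlt
  exact Nat.find_min hex hlt ⟨_, Finset.sdiff_subset.trans hIT, rfl, hI'⟩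

/-- Upper bound for the central binomial coefficient. -/
theorem centralBinom_sq (n : ℕ) : (Nat.centralBinom n) ^ 2 * (2 * n + 1) ≤ 16 ^ n := by
  induction n with
  | zero => simp
  | succ n ih =>
    have h1 := Nat.succ_mul_centralBinom_succ n
    have h2 : (n + 1) ^ 2 * (Nat.centralBinom (n + 1)) ^ 2
        = 4 * (2 * n + 1) ^ 2 * (Nat.centralBinom n) ^ 2 := by
      rw [← mul_pow, h1]; ring
    have h3 : (n + 1) ^ 2 * ((Nat.centralBinom (n + 1)) ^ 2 * (2 * (n + 1) + 1))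
        ≤ (n + 1) ^ 2 * 16 ^ (n + 1) := by
      calc (n + 1) ^ 2 * ((Nat.centralBinom (n + 1)) ^ 2 * (2 * (n + 1) + 1))
          = ((n + 1) ^ 2 * (Nat.centralBinom (n + 1)) ^ 2) * (2 * (n + 1) + 1) := by ring
        _ = (4 * (2 * n + 1) * (2 * (n + 1) + 1)) * ((Nat.centralBinom n) ^ 2 * (2 * n + 1)) := by
            rw [h2]; ring
        _ ≤ (4 * (2 * n + 1) * (2 * (n + 1) + 1)) * 16 ^ n := Nat.mul_le_mul_left _ ih
        _ ≤ (16 * (n + 1) ^ 2) * 16 ^ n := Nat.mul_le_mul_right _ (by nlinarith)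
        _ = (n + 1) ^ 2 * 16 ^ (n + 1) := by ring
    exact Nat.le_of_mul_le_mul_left h3 (by positivity)

/-- The middle layers have small density. -/
theorem exists_n (t : ℕ) {δ : ℝ} (hδ : 0 < δ) :
    ∃ n : ℕ, t < n ∧ ((2 * t + 1 : ℕ) : ℝ) * (Nat.centralBinom n : ℝ) ≤ δ * 4 ^ n := by
  obtain ⟨n, hn⟩ := exists_nat_gt (max (t : ℝ) (((2 * t + 1 : ℕ) : ℝ) ^ 2 / δ ^ 2))
  have hnt : (t : ℝ) < n := lt_of_le_of_lt (le_max_left _ _) hn
  have hn2 : ((2 * t + 1 : ℕ) : ℝ) ^ 2 / δ ^ 2 < n := lt_of_le_of_lt (le_max_right _ _) hn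
  refine ⟨n, by exact_mod_cast hnt, ?_⟩
  have h1 : (Nat.centralBinom n : ℝ) ^ 2 * (2 * n + 1) ≤ (4 ^ n) ^ 2 := by
    have := centralBinom_sq n
    have h2 : ((Nat.centralBinom n ^ 2 * (2 * n + 1) : ℕ) : ℝ) ≤ ((16 ^ n : ℕ) : ℝ) := by
      exact_mod_cast this
    push_cast at h2
    calc (Nat.centralBinom n : ℝ) ^ 2 * (2 * n + 1) ≤ 16 ^ n := h2
      _ = (4 ^ n) ^ 2 := by rw [← pow_mul, mul_comm n 2, pow_mul]; norm_num
  have h3 : ((2 * t + 1 : ℕ) : ℝ) ^ 2 ≤ δ ^ 2 * n := by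
    rw [div_lt_iff₀ (by positivity)] at hn2
    linarith
  apply le_of_sq_le_sq _ (by positivity)
  rw [mul_pow, mul_pow]
  have hc : (0 : ℝ) ≤ (Nat.centralBinom n : ℝ) ^ 2 := by positivity
  calc ((2 * t + 1 : ℕ) : ℝ) ^ 2 * (Nat.centralBinom n : ℝ) ^ 2
      ≤ (δ ^ 2 * n) * (Nat.centralBinom n : ℝ) ^ 2 := mul_le_mul_of_nonneg_right h3 hc
    _ ≤ δ ^ 2 * ((Nat.centralBinom n : ℝ) ^ 2 * (2 * n + 1)) := by
        have : (0:ℝ) ≤ δ ^ 2 := by positivity
        nlinarith [mul_nonneg this hc, mul_nonneg (mul_nonneg this hc) (Nat.cast_nonneg n : (0:ℝ) ≤ n)]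
    _ ≤ δ ^ 2 * (4 ^ n) ^ 2 := mul_le_mul_of_nonneg_left h1 (by positivity)

end Pool.Agent.Lib.MP_c4e285_co
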